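import Mathlib
import Pool.Agent.W737.SQ.Defs

/-!
# SQ-B: boundary point within K|rho z| (project SQ of helper737)
-/

set_option autoImplicit false

open Metric Set Filter Topology

namespace Pool.Agent.W599.SQ.Bdry

open Pool.Agent.W737.SQ

lemma rho_zero {n : ℕ} {Ω : Set (V n)} {ρ : V n → ℝ} (hD : Dom Ω ρ) {p : V n}
    (hp : p ∈ frontier Ω) : ρ p = 0 := by
  rw [hD.eq] at hp
  exact frontier_lt_subset_eq hD.smooth.continuous continuous_const hp

lemma exists_dir {n : ℕ} {Ω : Set (V n)} {ρ : V n → ℝ} (hD : Dom Ω ρ) {p : V n}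
    (hp : p ∈ frontier Ω) : ∃ e : V n, fderiv ℝ ρ p e = -1 := by
  have h := hD.nz p hp
  obtain ⟨e0, he0⟩ : ∃ e0, fderiv ℝ ρ p e0 ≠ 0 := by
    by_contra hcon
    push Not at hcon
    exact h (ContinuousLinearMap.ext hcon)
  refine ⟨(-(fderiv ℝ ρ p e0)⁻¹) • e0, ?_⟩
  rw [map_smul, smul_eq_mul, neg_mul, inv_mul_cancel₀ he0]

theorem main : S_bdry := by
  intro n Ω ρ hD p hp
  obtain ⟨e, he⟩ := exists_dir hD hp
  have hρp := rho_zero hD hp
  have hρc : Continuous ρ := hD.smooth.continuous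
  have hρ1 : ContDiff ℝ ((⊤ : ℕ∞) : WithTop ℕ∞) (fderiv ℝ ρ) :=
    hD.smooth.fderiv_right (by norm_cast)
  have hce : Continuous (fun z => fderiv ℝ ρ z e) := hρ1.continuous.clm_apply continuous_const
  obtain ⟨δ, hδ, hδb⟩ : ∃ δ > 0, ∀ z ∈ ball p δ, fderiv ℝ ρ z e < -(1 / 2) := by
    have h1 : {z | fderiv ℝ ρ z e < -(1 / 2)} ∈ 𝓝 p := by
      apply (isOpen_lt hce continuous_const).mem_nhds
      rw [mem_setOf_eq, he]
      norm_num
    obtain ⟨δ, hδ, h⟩ := Metric.mem_nhds_iff.mp h1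
    exact ⟨δ, hδ, fun z hz => h hz⟩
  set t0 : ℝ := δ / (2 * (‖e‖ + 1)) with ht0
  have hen : 0 ≤ ‖e‖ := norm_nonneg _
  have ht0pos : 0 < t0 := by positivity
  have ht0e : t0 * ‖e‖ < δ / 2 := by
    have h1 : t0 * (‖e‖ + 1) = δ / 2 := by
      rw [ht0]; field_simp
    nlinarith
  obtain ⟨r1, hr1, hr1b⟩ : ∃ r1 > 0, ∀ z ∈ ball p r1, |ρ z| < t0 / 2 := by
    have h1 : {z | |ρ z| < t0 / 2} ∈ 𝓝 p := by
      apply (isOpen_lt hρc.abs continuous_const).mem_nhds
      rw [mem_setOf_eq, hρp, abs_zero]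
      positivity
    obtain ⟨δ, hδ, h⟩ := Metric.mem_nhds_iff.mp h1
    exact ⟨δ, hδ, fun z hz => h hz⟩
  refine ⟨2 * ‖e‖ + 1, min r1 (δ / 2), by positivity, by positivity, ?_⟩
  intro z hz
  have hz1 : ‖z - p‖ < r1 := hz.trans_le (min_le_left _ _)
  have hz2 : ‖z - p‖ < δ / 2 := hz.trans_le (min_le_right _ _)
  have hρz : |ρ z| < t0 / 2 := hr1b z (by rw [mem_ball, dist_eq_norm]; exact hz1)
  have hin : ∀ t ∈ Icc (-t0) t0, z + t • e ∈ ball p δ := by
    intro t ht
    rw [mem_ball, dist_eq_norm]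
    have h1 : ‖z + t • e - p‖ ≤ ‖z - p‖ + ‖t • e‖ := by
      have : z + t • e - p = (z - p) + t • e := by abel
      rw [this]; exact norm_add_le _ _
    have h2 : ‖t • e‖ ≤ t0 * ‖e‖ := by
      rw [norm_smul, Real.norm_eq_abs]
      exact mul_le_mul_of_nonneg_right (abs_le.mpr ht) hen
    linarith
  set h : ℝ → ℝ := fun t => ρ (z + t • e) with hh
  have hder : ∀ t, HasDerivAt h (fderiv ℝ ρ (z + t • e) e) t := by
    intro t
    have h1 : HasDerivAt (fun t : ℝ => z + t • e) e t := by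
      have := ((hasDerivAt_id t).smul_const e).const_add z
      simpa using this
    exact ((hD.smooth.differentiable (by simp)).differentiableAt.hasFDerivAt).comp_hasDerivAt t h1
  have hcont : Continuous h := by
    rw [continuous_iff_continuousAt]; exact fun t => (hder t).continuousAt
  have hmono : ∀ x ∈ Icc (-t0) t0, ∀ y ∈ Icc (-t0) t0, x ≤ y → h y - h x ≤ -(1 / 2) * (y - x) := by
    apply Convex.image_sub_le_mul_sub_of_deriv_le (convex_Icc _ _) hcont.continuousOn
    · intro x _; exact (hder x).differentiableAt.differentiableWithinAt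
    · intro x hx
      rw [(hder x).deriv]
      exact (hδb _ (hin x (interior_subset hx))).le
  have h0 : h 0 = ρ z := by simp [hh]
  set a : ℝ := 2 * |ρ z| with ha
  have ha0 : 0 ≤ a := by positivity
  have hat : a < t0 := by rw [ha]; linarith
  have h0m : (0 : ℝ) ∈ Icc (-t0) t0 := ⟨by linarith, by linarith⟩
  have ham : a ∈ Icc (-t0) t0 := ⟨by linarith, by linarith⟩
  have ham' : -a ∈ Icc (-t0) t0 := ⟨by linarith, by linarith⟩
  have hh1 : h a ≤ 0 := by
    have := hmono 0 h0m a ham ha0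
    rw [h0] at this
    have := le_abs_self (ρ z)
    linarith
  have hh2 : 0 ≤ h (-a) := by
    have := hmono (-a) ham' 0 h0m (by linarith)
    rw [h0] at this
    have := neg_abs_le (ρ z)
    linarith
  obtain ⟨t, ht, htz⟩ : (0 : ℝ) ∈ h '' Icc (-a) a :=
    intermediate_value_Icc' (by linarith) hcont.continuousOn ⟨hh1, hh2⟩
  have htm : t ∈ Icc (-t0) t0 := ⟨by linarith [ht.1], by linarith [ht.2]⟩
  refine ⟨z + t • e, ?_, ?_⟩
  · have hopen : IsOpen Ω := by
      rw [hD.eq]; exact isOpen_lt hρc continuous_const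
    rw [hopen.frontier_eq]
    constructor
    · have hcl : t ∈ closure (Ioo t t0) := by
        have hlt : t < t0 := by linarith [ht.2]
        rw [closure_Ioo hlt.ne]
        exact ⟨le_rfl, htm.2⟩
      have hmap : MapsTo (fun s : ℝ => z + s • e) (Ioo t t0) Ω := by
        intro s hs
        rw [hD.eq]
        have := hmono t htm s ⟨by linarith [hs.1, htm.1], hs.2.le⟩ hs.1.le
        rw [htz] at this
        have hs1 := hs.1
        show h s < 0
        linarith
      exact map_mem_closure (f := fun s : ℝ => z + s • e) (by fun_prop) hcl hmap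
    · rw [hD.eq]
      intro hcon
      have : h t < 0 := hcon
      linarith
  · have : z - (z + t • e) = - (t • e) := by abel
    rw [this, norm_neg, norm_smul, Real.norm_eq_abs]
    have h1 : |t| ≤ a := abs_le.mpr ht
    calc |t| * ‖e‖ ≤ a * ‖e‖ := mul_le_mul_of_nonneg_right h1 hen
      _ = 2 * ‖e‖ * |ρ z| := by rw [ha]; ring
      _ ≤ (2 * ‖e‖ + 1) * |ρ z| := by
          apply mul_le_mul_of_nonneg_right _ (abs_nonneg _); linarith

end Pool.Agent.W599.SQ.Bdry
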