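import Mathlib
import Pool.Agent.W737.SQ.Defs

/-!
# SQ-C: circle means of positive supersolutions in the plane (project SQ of helper737)
-/

set_option autoImplicit false

open Metric Set Filter Topology MeasureTheory

namespace Pool.Agent.W599.SQ.Circle

/-- derivative under the integral sign for jointly continuous functions -/
lemma param {R : ℝ} (F F' : ℝ → ℝ → ℝ)
    (hF : ContinuousOn (fun p : ℝ × ℝ => F p.1 p.2) (Ioo (-R) R ×ˢ univ))
    (hF' : ContinuousOn (fun p : ℝ × ℝ => F' p.1 p.2) (Ioo (-R) R ×ˢ univ))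
    (hd : ∀ s ∈ Ioo (-R) R, ∀ α : ℝ, HasDerivAt (fun x => F x α) (F' s α) s)
    (a b : ℝ) (s : ℝ) (hs : s ∈ Ioo (-R) R) :
    HasDerivAt (fun x => ∫ α in a..b, F x α) (∫ α in a..b, F' s α) s := by
  obtain ⟨ε, hε, hsub⟩ : ∃ ε > 0, Icc (s - ε) (s + ε) ⊆ Ioo (-R) R := by
    refine ⟨min (s + R) (R - s) / 2, ?_, ?_⟩
    · have h1 : 0 < s + R := by linarith [hs.1]
      have h2 : 0 < R - s := by linarith [hs.2]
      have := lt_min h1 h2
      linarith
    · have h1 : 0 < s + R := by linarith [hs.1]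
      have h2 : 0 < R - s := by linarith [hs.2]
      have h3 := lt_min h1 h2
      have h4 := min_le_left (s + R) (R - s)
      have h5 := min_le_right (s + R) (R - s)
      intro x hx
      constructor
      · linarith [hx.1]
      · linarith [hx.2]
  have hsl : ∀ x ∈ Ioo (-R) R, Continuous (fun α => F x α) := by
    intro x hx
    rw [← continuousOn_univ]
    exact hF.comp (f := fun α : ℝ => (x, α)) (by fun_prop) (fun α _ => ⟨hx, mem_univ _⟩)
  have hsl' : ∀ x ∈ Ioo (-R) R, Continuous (fun α => F' x α) := by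
    intro x hx
    rw [← continuousOn_univ]
    exact hF'.comp (f := fun α : ℝ => (x, α)) (by fun_prop) (fun α _ => ⟨hx, mem_univ _⟩)
  obtain ⟨C, hC⟩ : ∃ C, ∀ p ∈ Icc (s - ε) (s + ε) ×ˢ uIcc a b, ‖F' p.1 p.2‖ ≤ C := by
    apply IsCompact.exists_bound_of_continuousOn
    · exact isCompact_Icc.prod isCompact_uIcc
    · exact hF'.mono (prod_mono hsub (subset_univ _))
  have hnh : Icc (s - ε) (s + ε) ∈ 𝓝 s := Icc_mem_nhds (by linarith) (by linarith)
  refine (intervalIntegral.hasDerivAt_integral_of_dominated_loc_of_deriv_le (F := F) (F' := F')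
    (μ := volume) (bound := fun _ => C) (s := Icc (s - ε) (s + ε)) hnh ?_ ?_ ?_ ?_ ?_ ?_).2
  · filter_upwards [hnh] with x hx
    exact (hsl x (hsub hx)).aestronglyMeasurable
  · exact (hsl s hs).intervalIntegrable _ _
  · exact (hsl' s hs).aestronglyMeasurable
  · refine Eventually.of_forall fun t ht x hx => hC (x, t) ⟨hx, uIoc_subset_uIcc ht⟩
  · exact intervalIntegrable_const
  · exact Eventually.of_forall fun t _ x hx => hd x (hsub hx) t

/-- rotation invariance of the trace -/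
lemma trace_rot (B : ℂ →L[ℝ] ℂ →L[ℝ] ℝ) (e : ℂ) (he : e.re ^ 2 + e.im ^ 2 = 1) :
    B e e + B (Complex.I * e) (Complex.I * e) = B 1 1 + B Complex.I Complex.I := by
  have h1 : e = e.re • (1 : ℂ) + e.im • Complex.I := by
    apply Complex.ext <;> simp
  have h2 : Complex.I * e = (-e.im) • (1 : ℂ) + e.re • Complex.I := by
    apply Complex.ext <;> simp
  rw [h2]
  generalize e.re = a at *
  generalize e.im = b at *
  rw [h1]
  simp only [map_add, map_smul, ContinuousLinearMap.add_apply, ContinuousLinearMap.smul_apply,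
    smul_eq_mul]
  linear_combination (B 1 1 + B Complex.I Complex.I) * he

/-- the main estimate for a smooth function with `Δ g ≤ K g` -/
lemma main_g (g : ℂ → ℝ) (R K s0 : ℝ) (hR : 0 < R) (hK : 0 ≤ K) (hs0 : 0 < s0) (hs0R : s0 < R)
    (hsm : K * s0 ^ 2 / 4 ≤ 1 / 2)
    (hg : ContDiffOn ℝ ((⊤ : ℕ∞) : WithTop ℕ∞) g (ball 0 R))
    (hpos : ∀ ζ ∈ ball (0 : ℂ) R, 0 ≤ g ζ)
    (hlap : ∀ ζ ∈ ball (0 : ℂ) R,
      fderiv ℝ (fderiv ℝ g) ζ 1 1 + fderiv ℝ (fderiv ℝ g) ζ Complex.I Complex.I ≤ K * g ζ) :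
    ∀ s : ℝ, 0 ≤ s → s ≤ s0 →
      ∫ α in (0 : ℝ)..(2 * Real.pi), g (circleMap 0 s α) ≤ 2 * Real.pi * (2 * g 0) := by
  have hg1 : ContDiffOn ℝ ((⊤ : ℕ∞) : WithTop ℕ∞) (fderiv ℝ g) (ball 0 R) :=
    hg.fderiv_of_isOpen isOpen_ball (by norm_cast)
  have hg2 : ContDiffOn ℝ ((⊤ : ℕ∞) : WithTop ℕ∞) (fderiv ℝ (fderiv ℝ g)) (ball 0 R) :=
    hg1.fderiv_of_isOpen isOpen_ball (by norm_cast)
  have hD0 : ∀ z ∈ ball (0 : ℂ) R, HasFDerivAt g (fderiv ℝ g z) z := by
    intro z hz
    exact ((hg.contDiffAt (isOpen_ball.mem_nhds hz)).differentiableAt (by simp)).hasFDerivAt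
  have hD1 : ∀ z ∈ ball (0 : ℂ) R, HasFDerivAt (fderiv ℝ g) (fderiv ℝ (fderiv ℝ g) z) z := by
    intro z hz
    exact ((hg1.contDiffAt (isOpen_ball.mem_nhds hz)).differentiableAt (by simp)).hasFDerivAt
  set e : ℝ → ℂ := fun α => Complex.exp (α * Complex.I) with he
  have hec : Continuous e := by
    rw [he]; fun_prop
  have hcm : ∀ s α : ℝ, circleMap 0 s α = (s : ℝ) • e α := by
    intro s α
    simp [circleMap, he]
  have hnorm : ∀ α, ‖e α‖ = 1 := fun α => by
    rw [he]; exact Complex.norm_exp_ofReal_mul_I α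
  have hunit : ∀ α, (e α).re ^ 2 + (e α).im ^ 2 = 1 := by
    intro α
    have := hnorm α
    have h2 : ‖e α‖ ^ 2 = 1 := by rw [this]; norm_num
    rw [← Complex.normSq_eq_norm_sq, Complex.normSq_apply] at h2
    linarith [h2]
  have hin : ∀ s ∈ Ioo (-R) R, ∀ α, s • e α ∈ ball (0 : ℂ) R := by
    intro s hs α
    rw [mem_ball_zero_iff, norm_smul, hnorm, mul_one, Real.norm_eq_abs, abs_lt]
    exact ⟨hs.1, hs.2⟩
  have hmap : MapsTo (fun p : ℝ × ℝ => p.1 • e p.2) (Ioo (-R) R ×ˢ univ) (ball (0 : ℂ) R) :=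
    fun p hp => hin p.1 hp.1 p.2
  have hγ : Continuous (fun p : ℝ × ℝ => p.1 • e p.2) :=
    continuous_fst.smul (hec.comp continuous_snd)
  have c0 : ContinuousOn (fun p : ℝ × ℝ => g (p.1 • e p.2)) (Ioo (-R) R ×ˢ univ) :=
    hg.continuousOn.comp hγ.continuousOn hmap
  have c1' : ContinuousOn (fun p : ℝ × ℝ => fderiv ℝ g (p.1 • e p.2)) (Ioo (-R) R ×ˢ univ) :=
    hg1.continuousOn.comp hγ.continuousOn hmap
  have c2' : ContinuousOn (fun p : ℝ × ℝ => fderiv ℝ (fderiv ℝ g) (p.1 • e p.2))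
      (Ioo (-R) R ×ˢ univ) :=
    hg2.continuousOn.comp hγ.continuousOn hmap
  have ce : ContinuousOn (fun p : ℝ × ℝ => e p.2) (Ioo (-R) R ×ˢ univ) :=
    (hec.comp continuous_snd).continuousOn
  have c1 : ContinuousOn (fun p : ℝ × ℝ => fderiv ℝ g (p.1 • e p.2) (e p.2))
      (Ioo (-R) R ×ˢ univ) := c1'.clm_apply ce
  have c2 : ContinuousOn (fun p : ℝ × ℝ => fderiv ℝ (fderiv ℝ g) (p.1 • e p.2) (e p.2) (e p.2))
      (Ioo (-R) R ×ˢ univ) := (c2'.clm_apply ce).clm_apply ce
  have ds : ∀ s α : ℝ, HasDerivAt (fun x : ℝ => x • e α) (e α) s := by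
    intro s α
    simpa using (hasDerivAt_id s).smul_const (e α)
  have d0 : ∀ s ∈ Ioo (-R) R, ∀ α : ℝ,
      HasDerivAt (fun x => g (x • e α)) (fderiv ℝ g (s • e α) (e α)) s := by
    intro s hs α
    exact (hD0 _ (hin s hs α)).comp_hasDerivAt s (ds s α)
  have d1 : ∀ s ∈ Ioo (-R) R, ∀ α : ℝ,
      HasDerivAt (fun x => fderiv ℝ g (x • e α) (e α))
        (fderiv ℝ (fderiv ℝ g) (s • e α) (e α) (e α)) s := by
    intro s hs α
    have h := (hD1 _ (hin s hs α)).comp_hasDerivAt s (ds s α)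
    have h2 := h.clm_apply (hasDerivAt_const s (e α))
    simpa using h2
  set m : ℝ → ℝ := fun s => ∫ α in (0 : ℝ)..(2 * Real.pi), g (s • e α) with hm
  set m1 : ℝ → ℝ := fun s => ∫ α in (0 : ℝ)..(2 * Real.pi), fderiv ℝ g (s • e α) (e α) with hm1
  set m2 : ℝ → ℝ := fun s => ∫ α in (0 : ℝ)..(2 * Real.pi),
    fderiv ℝ (fderiv ℝ g) (s • e α) (e α) (e α) with hm2
  have D0 : ∀ s ∈ Ioo (-R) R, HasDerivAt m (m1 s) s := fun s hs =>
    param _ _ c0 c1 d0 _ _ s hs
  have D1 : ∀ s ∈ Ioo (-R) R, HasDerivAt m1 (m2 s) s := fun s hs =>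
    param _ _ c1 c2 d1 _ _ s hs
  -- slices
  have sl : ∀ (s : ℝ), s ∈ Ioo (-R) R → ∀ {X : Type} [TopologicalSpace X] (G : ℝ × ℝ → X),
      ContinuousOn G (Ioo (-R) R ×ˢ univ) → Continuous (fun α : ℝ => G (s, α)) := by
    intro s hs X _ G hG
    rw [← continuousOn_univ]
    exact hG.comp (f := fun α : ℝ => (s, α)) (by fun_prop) (fun α _ => ⟨hs, mem_univ _⟩)
  -- angular derivative
  have de : ∀ α : ℝ, HasDerivAt e (Complex.I * e α) α := by
    intro α
    have h1 : HasDerivAt (fun x : ℝ => ((x : ℂ) * Complex.I)) Complex.I α := by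
      have := (Complex.ofRealCLM.hasDerivAt (x := α)).mul_const Complex.I
      simpa using this
    have h2 := h1.cexp
    rw [mul_comm] at h2
    exact h2
  have hang : ∀ s ∈ Ioo (-R) R,
      ∫ α in (0 : ℝ)..(2 * Real.pi),
        (s ^ 2 * fderiv ℝ (fderiv ℝ g) (s • e α) (Complex.I * e α) (Complex.I * e α)
          - s * fderiv ℝ g (s • e α) (e α)) = 0 := by
    intro s hs
    have hd : ∀ α ∈ uIcc (0 : ℝ) (2 * Real.pi),
        HasDerivAt (fun α => fderiv ℝ g (s • e α) (s • (Complex.I * e α)))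
        (s ^ 2 * fderiv ℝ (fderiv ℝ g) (s • e α) (Complex.I * e α) (Complex.I * e α)
          - s * fderiv ℝ g (s • e α) (e α)) α := by
      intro α _
      have h1 : HasDerivAt (fun α => s • e α) (s • (Complex.I * e α)) α := (de α).const_smul s
      have h2 : HasDerivAt (fun α => s • (Complex.I * e α)) (s • (Complex.I * (Complex.I * e α)))
        α := ((de α).const_mul Complex.I).const_smul s
      have h3 := (hD1 _ (hin s hs α)).comp_hasDerivAt α h1
      have h4 := h3.clm_apply h2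
      refine h4.congr_deriv ?_
      have h5 : Complex.I * (Complex.I * e α) = - e α := by
        rw [← mul_assoc, Complex.I_mul_I]; ring
      rw [h5]
      simp only [map_smul, ContinuousLinearMap.smul_apply, smul_eq_mul, map_neg,
        Function.comp_apply]
      ring
    rw [intervalIntegral.integral_eq_sub_of_hasDerivAt hd]
    · have h2pi : e (2 * Real.pi) = e 0 := by
        simp [he, Complex.exp_two_pi_mul_I]
      rw [h2pi]; simp
    · apply Continuous.intervalIntegrable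
      have k1 := sl s hs _ c1
      have k2 := sl s hs _ c2'
      have k3 : Continuous (fun α => Complex.I * e α) := continuous_const.mul hec
      exact (continuous_const.mul ((k2.clm_apply k3).clm_apply k3)).sub (continuous_const.mul k1)
  -- key inequality
  have hkey : ∀ s ∈ Ioo (0 : ℝ) R, m1 s + s * m2 s ≤ K * s * m s := by
    intro s hs
    have hs' : s ∈ Ioo (-R) R := ⟨by linarith [hs.1], hs.2⟩
    have k0 := sl s hs' _ c0
    have k1 := sl s hs' _ c1
    have k2 := sl s hs' _ c2'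
    have k22 := sl s hs' _ c2
    have k3 : Continuous (fun α => Complex.I * e α) := continuous_const.mul hec
    have k4 := (k2.clm_apply k3).clm_apply k3
    have ha := hang s hs'
    have i1 : IntervalIntegrable (fun α => s ^ 2 * fderiv ℝ (fderiv ℝ g) (s • e α)
        (Complex.I * e α) (Complex.I * e α)) volume 0 (2 * Real.pi) :=
      (continuous_const.mul k4).intervalIntegrable _ _
    have i2 : IntervalIntegrable (fun α => s * fderiv ℝ g (s • e α) (e α)) volume 0
        (2 * Real.pi) := (continuous_const.mul k1).intervalIntegrable _ _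
    have i3 : IntervalIntegrable (fun α => fderiv ℝ (fderiv ℝ g) (s • e α)
        (Complex.I * e α) (Complex.I * e α)) volume 0 (2 * Real.pi) :=
      k4.intervalIntegrable _ _
    have i4 : IntervalIntegrable (fun α => fderiv ℝ (fderiv ℝ g) (s • e α)
        (e α) (e α)) volume 0 (2 * Real.pi) :=
      k22.intervalIntegrable _ _
    have i5 : IntervalIntegrable (fun α => K * g (s • e α)) volume 0 (2 * Real.pi) :=
      (continuous_const.mul k0).intervalIntegrable _ _
    rw [intervalIntegral.integral_sub i1 i2, intervalIntegral.integral_const_mul,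
      intervalIntegral.integral_const_mul] at ha
    have ha2 : s * ∫ α in (0 : ℝ)..(2 * Real.pi),
        fderiv ℝ (fderiv ℝ g) (s • e α) (Complex.I * e α) (Complex.I * e α) = m1 s := by
      have : s * (s * (∫ α in (0 : ℝ)..(2 * Real.pi),
        fderiv ℝ (fderiv ℝ g) (s • e α) (Complex.I * e α) (Complex.I * e α)) - m1 s) = 0 := by
        rw [hm1]; simp only; linarith [ha]
      rcases mul_eq_zero.mp this with h | h
      · exact absurd h hs.1.ne'
      · linarith
    have hle : (∫ α in (0 : ℝ)..(2 * Real.pi),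
        (fderiv ℝ (fderiv ℝ g) (s • e α) (Complex.I * e α) (Complex.I * e α)
          + fderiv ℝ (fderiv ℝ g) (s • e α) (e α) (e α))) ≤
        ∫ α in (0 : ℝ)..(2 * Real.pi), K * g (s • e α) := by
      apply intervalIntegral.integral_mono_on (by positivity)
      · exact i3.add i4
      · exact i5
      · intro α _
        have := trace_rot (fderiv ℝ (fderiv ℝ g) (s • e α)) (e α) (hunit α)
        rw [add_comm, this]
        exact hlap _ (hin s hs' α)
    rw [intervalIntegral.integral_add i3 i4, intervalIntegral.integral_const_mul] at hle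
    have h5 := mul_le_mul_of_nonneg_left hle hs.1.le
    rw [mul_add, ha2] at h5
    calc m1 s + s * m2 s ≤ s * (K * m s) := h5
      _ = K * s * m s := by ring
  -- maximum
  have hmc : ContinuousOn m (Icc 0 s0) := by
    intro s hs
    exact (D0 s ⟨by linarith [hs.1], by linarith [hs.2]⟩).continuousAt.continuousWithinAt
  obtain ⟨sm, hsm1, hsm2⟩ := isCompact_Icc.exists_isMaxOn (nonempty_Icc.mpr hs0.le) hmc
  have hmax : ∀ s ∈ Icc 0 s0, m s ≤ m sm := fun s hs => hsm2 hs
  have hmnn : ∀ s ∈ Icc 0 s0, 0 ≤ m s := by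
    intro s hs
    apply intervalIntegral.integral_nonneg (by positivity)
    intro α _
    exact hpos _ (hin s ⟨by linarith [hs.1], by linarith [hs.2]⟩ α)
  set S := m sm with hS
  have hS0 : 0 ≤ S := hmnn sm hsm1
  have hint : interior (Icc 0 s0) = Ioo 0 s0 := interior_Icc
  -- first monotonicity
  have hF : AntitoneOn (fun s => s * m1 s - K * S * s ^ 2 / 2) (Icc 0 s0) := by
    have hder : ∀ s ∈ Icc 0 s0, HasDerivAt (fun s => s * m1 s - K * S * s ^ 2 / 2)
        (m1 s + s * m2 s - K * S * s) s := by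
      intro s hs
      have hs' : s ∈ Ioo (-R) R := ⟨by linarith [hs.1], by linarith [hs.2]⟩
      have h1 := (hasDerivAt_id s).mul (D1 s hs')
      have h2 : HasDerivAt (fun s : ℝ => K * S * s ^ 2 / 2) (K * S * s) s :=
        (((hasDerivAt_pow 2 s).const_mul (K * S)).div_const 2).congr_deriv (by
          push_cast; simp; ring)
      exact (h1.sub h2).congr_deriv (by simp)
    apply antitoneOn_of_deriv_nonpos (convex_Icc _ _)
    · intro s hs
      exact (hder s hs).continuousAt.continuousWithinAt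
    · intro s hs
      rw [hint] at hs
      exact (hder s (Ioo_subset_Icc_self hs)).differentiableAt.differentiableWithinAt
    · intro s hs
      rw [hint] at hs
      rw [(hder s (Ioo_subset_Icc_self hs)).deriv]
      have h1 := hkey s ⟨hs.1, by linarith [hs.2]⟩
      have h2 : K * s * m s ≤ K * s * S :=
        mul_le_mul_of_nonneg_left (hmax s (Ioo_subset_Icc_self hs))
          (mul_nonneg hK hs.1.le)
      linarith
  have hm1le : ∀ s ∈ Ioo 0 s0, m1 s ≤ K * S * s / 2 := by
    intro s hs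
    have h := hF (left_mem_Icc.mpr hs0.le) (Ioo_subset_Icc_self hs) hs.1.le
    simp only at h
    have h2 : s * (m1 s - K * S * s / 2) ≤ 0 := by nlinarith [h]
    by_contra hcon
    push Not at hcon
    have : 0 < s * (m1 s - K * S * s / 2) := mul_pos hs.1 (by linarith)
    linarith
  have hG : AntitoneOn (fun s => m s - K * S * s ^ 2 / 4) (Icc 0 s0) := by
    have hder : ∀ s ∈ Icc 0 s0, HasDerivAt (fun s => m s - K * S * s ^ 2 / 4)
        (m1 s - K * S * s / 2) s := by
      intro s hs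
      have hs' : s ∈ Ioo (-R) R := ⟨by linarith [hs.1], by linarith [hs.2]⟩
      have h2 : HasDerivAt (fun s : ℝ => K * S * s ^ 2 / 4) (K * S * s / 2) s :=
        (((hasDerivAt_pow 2 s).const_mul (K * S)).div_const 4).congr_deriv (by
          push_cast; simp; ring)
      exact (D0 s hs').sub h2
    apply antitoneOn_of_deriv_nonpos (convex_Icc _ _)
    · intro s hs
      exact (hder s hs).continuousAt.continuousWithinAt
    · intro s hs
      rw [hint] at hs
      exact (hder s (Ioo_subset_Icc_self hs)).differentiableAt.differentiableWithinAt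
    · intro s hs
      rw [hint] at hs
      rw [(hder s (Ioo_subset_Icc_self hs)).deriv]
      linarith [hm1le s hs]
  have hfin : ∀ s ∈ Icc 0 s0, m s ≤ m 0 + S / 2 := by
    intro s hs
    have h := hG (left_mem_Icc.mpr hs0.le) hs hs.1
    simp only at h
    have h2 : s ^ 2 ≤ s0 ^ 2 := by
      have := hs.1; have := hs.2; gcongr
    have h3 : K * S * s ^ 2 / 4 ≤ S / 2 := by
      calc K * S * s ^ 2 / 4 ≤ K * S * s0 ^ 2 / 4 := by
            have : 0 ≤ K * S := mul_nonneg hK hS0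
            nlinarith
        _ = S * (K * s0 ^ 2 / 4) := by ring
        _ ≤ S * (1 / 2) := mul_le_mul_of_nonneg_left hsm hS0
        _ = S / 2 := by ring
    nlinarith
  have hSle : S ≤ 2 * m 0 := by
    have := hfin sm hsm1
    rw [← hS] at this
    linarith
  have hm0 : m 0 = 2 * Real.pi * g 0 := by
    simp [hm]
  intro s hs1 hs2
  have h1 : m s ≤ S := hmax s ⟨hs1, hs2⟩
  have h2 : (∫ α in (0 : ℝ)..(2 * Real.pi), g (circleMap 0 s α)) = m s := by
    rw [hm]; simp only [hcm]
  rw [h2]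
  rw [hm0] at hSle
  linarith

/-- operator norm of a real functional on the plane -/
lemma norm_sq_le (L : ℂ →L[ℝ] ℝ) : ‖L‖ ^ 2 ≤ (L 1) ^ 2 + (L Complex.I) ^ 2 := by
  have h : ‖L‖ ≤ Real.sqrt ((L 1) ^ 2 + (L Complex.I) ^ 2) := by
    apply ContinuousLinearMap.opNorm_le_bound _ (Real.sqrt_nonneg _)
    intro z
    have hz : z = z.re • (1 : ℂ) + z.im • Complex.I := by
      apply Complex.ext <;> simp
    have h1 : L z = z.re * L 1 + z.im * L Complex.I := by
      have h := congrArg L hz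
      rwa [map_add, map_smul, map_smul, smul_eq_mul, smul_eq_mul] at h
    rw [h1, Real.norm_eq_abs, Complex.norm_eq_sqrt_sq_add_sq, ← Real.sqrt_mul (by positivity)]
    apply Real.abs_le_sqrt
    nlinarith [sq_nonneg (z.re * L Complex.I - z.im * L 1)]
  calc ‖L‖ ^ 2 ≤ (Real.sqrt ((L 1) ^ 2 + (L Complex.I) ^ 2)) ^ 2 := by gcongr
    _ = _ := Real.sq_sqrt (by positivity)

theorem main : Pool.Agent.W737.SQ.S_circle := by
  intro η K R hη hη1 hK hR
  set K' : ℝ := η * (K + K ^ 2 / (4 * (1 - η))) with hK'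
  have h1η : 0 < 1 - η := by linarith
  have hK'0 : 0 ≤ K' := by positivity
  refine ⟨min (R / 2) (min 1 (1 / (K' + 1))), by positivity, ?_, ?_⟩
  · exact lt_of_le_of_lt (min_le_left _ _) (by linarith)
  intro f hf hpos hlap
  set s0 := min (R / 2) (min 1 (1 / (K' + 1))) with hs0
  have hs0pos : 0 < s0 := by positivity
  have hs0R : s0 < R := lt_of_le_of_lt (min_le_left _ _) (by linarith)
  have hs1 : s0 ≤ 1 := (min_le_right _ _).trans (min_le_left _ _)
  have hs2 : s0 ≤ 1 / (K' + 1) := (min_le_right _ _).trans (min_le_right _ _)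
  have hsm : K' * s0 ^ 2 / 4 ≤ 1 / 2 := by
    have h3 : K' * s0 ≤ 1 := by
      calc K' * s0 ≤ K' * (1 / (K' + 1)) := mul_le_mul_of_nonneg_left hs2 hK'0
        _ ≤ 1 := by
          rw [mul_one_div, div_le_one (by positivity)]; linarith
    have h4 : K' * s0 ^ 2 ≤ 1 := by
      calc K' * s0 ^ 2 = (K' * s0) * s0 := by ring
        _ ≤ 1 * 1 := mul_le_mul h3 hs1 hs0pos.le (by norm_num)
        _ = 1 := by norm_num
    linarith
  have hfne : ∀ ζ ∈ ball (0 : ℂ) R, f ζ ≠ 0 := fun ζ hζ => (hpos ζ hζ).ne'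
  have hg : ContDiffOn ℝ ((⊤ : ℕ∞) : WithTop ℕ∞) (fun z => (f z) ^ η) (ball 0 R) :=
    hf.rpow_const_of_ne hfne
  have hf1 : ContDiffOn ℝ ((⊤ : ℕ∞) : WithTop ℕ∞) (fderiv ℝ f) (ball 0 R) :=
    hf.fderiv_of_isOpen isOpen_ball (by norm_cast)
  have hD0 : ∀ z ∈ ball (0 : ℂ) R, HasFDerivAt f (fderiv ℝ f z) z := by
    intro z hz
    exact ((hf.contDiffAt (isOpen_ball.mem_nhds hz)).differentiableAt (by simp)).hasFDerivAt
  have hD1 : ∀ z ∈ ball (0 : ℂ) R, HasFDerivAt (fderiv ℝ f) (fderiv ℝ (fderiv ℝ f) z) z := by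
    intro z hz
    exact ((hf1.contDiffAt (isOpen_ball.mem_nhds hz)).differentiableAt (by simp)).hasFDerivAt
  have hgD : ∀ z ∈ ball (0 : ℂ) R,
      fderiv ℝ (fun z => (f z) ^ η) z = (η * (f z) ^ (η - 1)) • fderiv ℝ f z := by
    intro z hz
    exact ((hD0 z hz).rpow_const (Or.inl (hfne z hz))).fderiv
  have hgDD : ∀ z ∈ ball (0 : ℂ) R, ∀ v : ℂ,
      fderiv ℝ (fderiv ℝ (fun z => (f z) ^ η)) z v v
        = η * (f z) ^ (η - 1) * fderiv ℝ (fderiv ℝ f) z v v
          + η * (η - 1) * (f z) ^ (η - 2) * (fderiv ℝ f z v) ^ 2 := by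
    intro z hz v
    have hev : fderiv ℝ (fun z => (f z) ^ η) =ᶠ[𝓝 z]
        fun z => (η * (f z) ^ (η - 1)) • fderiv ℝ f z := by
      filter_upwards [isOpen_ball.mem_nhds hz] with w hw using hgD w hw
    rw [hev.fderiv_eq]
    have h1 : HasFDerivAt (fun z => (f z) ^ (η - 1))
        (((η - 1) * (f z) ^ (η - 1 - 1)) • fderiv ℝ f z) z :=
      (hD0 z hz).rpow_const (Or.inl (hfne z hz))
    have h2 : HasFDerivAt (fun z => (η * (f z) ^ (η - 1)) • fderiv ℝ f z) _ z :=
      (h1.const_mul η).smul (hD1 z hz)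
    rw [h2.fderiv]
    have h3 : η - 1 - 1 = η - 2 := by ring
    simp only [ContinuousLinearMap.add_apply, ContinuousLinearMap.smul_apply,
      ContinuousLinearMap.smulRight_apply, smul_eq_mul, h3]
    ring
  have hlap' : ∀ ζ ∈ ball (0 : ℂ) R,
      fderiv ℝ (fderiv ℝ (fun z => (f z) ^ η)) ζ 1 1
        + fderiv ℝ (fderiv ℝ (fun z => (f z) ^ η)) ζ Complex.I Complex.I
        ≤ K' * (f ζ) ^ η := by
    intro z hz
    rw [hgDD z hz, hgDD z hz]
    have hfz := hpos z hz
    have hL := norm_sq_le (fderiv ℝ f z)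
    have hl := hlap z hz
    set N := ‖fderiv ℝ f z‖ with hN
    have hN0 : 0 ≤ N := norm_nonneg _
    set a := fderiv ℝ f z 1
    set b := fderiv ℝ f z Complex.I
    set A := fderiv ℝ (fderiv ℝ f) z 1 1
    set B := fderiv ℝ (fderiv ℝ f) z Complex.I Complex.I
    set q := f z with hq
    have e1 : q ^ (η - 1) = q ^ (η - 2) * q := by
      rw [← Real.rpow_add_one hfz.ne']; congr 1; ring
    have e2 : q ^ η = q ^ (η - 2) * q ^ 2 := by
      rw [← Real.rpow_natCast q 2, ← Real.rpow_add hfz]; congr 1; push_cast; ring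
    rw [e1, e2]
    have hP : 0 < q ^ (η - 2) := Real.rpow_pos_of_pos hfz _
    set P := q ^ (η - 2)
    have main1 : q * (A + B) - (1 - η) * (a ^ 2 + b ^ 2) ≤ (K + K ^ 2 / (4 * (1 - η))) * q ^ 2 := by
      have t1 : q * (A + B) ≤ q * (K * (q + N)) := mul_le_mul_of_nonneg_left hl hfz.le
      have t2 : (1 - η) * N ^ 2 ≤ (1 - η) * (a ^ 2 + b ^ 2) :=
        mul_le_mul_of_nonneg_left hL h1η.le
      have t3 : K * q * N ≤ (1 - η) * N ^ 2 + K ^ 2 / (4 * (1 - η)) * q ^ 2 := by
        have : 0 ≤ (1 - η) * (N - K * q / (2 * (1 - η))) ^ 2 := by positivity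
        have h : (1 - η) * (N - K * q / (2 * (1 - η))) ^ 2
            = (1 - η) * N ^ 2 + K ^ 2 / (4 * (1 - η)) * q ^ 2 - K * q * N := by
          field_simp
          ring
        linarith
      nlinarith
    have main2 := mul_le_mul_of_nonneg_left main1 (mul_nonneg hη.le hP.le)
    rw [hK']
    nlinarith [main2]
  have hpos' : ∀ ζ ∈ ball (0 : ℂ) R, 0 ≤ (f ζ) ^ η := fun ζ hζ =>
    Real.rpow_nonneg (hpos ζ hζ).le _
  intro s hs hs'
  exact main_g (fun z => (f z) ^ η) R K' s0 hR hK'0 hs0pos hs0R hsm hg hpos' hlap' s hs hs'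

end Pool.Agent.W599.SQ.Circle
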