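import Mathlib
import Pool.Agent.W737.SQ.Defs

/-!
# SQ-G: gradient bound from circle means with Vandermonde weights (project SQ of helper737)
-/

set_option autoImplicit false

open Metric Set Filter Topology MeasureTheory

namespace Pool.Agent.W599.SQ.Grad

/-- weights picking out the first Taylor coefficient -/
lemma weights (k : ℕ) : ∃ w : Fin (k + 2) → ℝ, ∀ i : Fin (k + 2),
    ∑ j : Fin (k + 2), w j * ((j : ℕ) : ℝ) ^ (i : ℕ) = if (i : ℕ) = 1 then 1 else 0 := by
  set v : Fin (k + 2) → ℝ := fun j => ((j : ℕ) : ℝ) with hv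
  have hinj : Function.Injective v := by
    intro a b hab
    simp only [hv, Nat.cast_inj] at hab
    exact Fin.ext hab
  have hdet : (Matrix.vandermonde v).det ≠ 0 := Matrix.det_vandermonde_ne_zero_iff.mpr hinj
  have hu : IsUnit (Matrix.vandermonde v).det := hdet.isUnit
  set c : Fin (k + 2) → ℝ := fun i => if (i : ℕ) = 1 then 1 else 0 with hc
  refine ⟨Matrix.vecMul c (Matrix.vandermonde v)⁻¹, fun i => ?_⟩
  have h : Matrix.vecMul (Matrix.vecMul c (Matrix.vandermonde v)⁻¹) (Matrix.vandermonde v) = c := by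
    rw [Matrix.vecMul_vecMul, Matrix.nonsing_inv_mul _ hu, Matrix.vecMul_one]
  have h2 := congrFun h i
  rw [Matrix.vecMul, dotProduct] at h2
  simpa [Matrix.vandermonde_apply, hv, hc] using h2

theorem main : Pool.Agent.W737.SQ.S_grad := by
  intro k K s0 hK hs0
  obtain ⟨w, hw⟩ := weights k
  set W : ℝ := ∑ j : Fin (k + 2), |w j| with hW
  have hW0 : 0 ≤ W := Finset.sum_nonneg fun j _ => abs_nonneg _
  set Cst : ℝ := W * (1 + 2 * K * ((k : ℝ) + 2) ^ (k + 2)) + 1 with hCst
  have hkp : (0 : ℝ) < (k : ℝ) + 2 := by positivity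
  refine ⟨Cst, by positivity, ?_⟩
  intro f L μ hf hμ hT hI t ht htk
  set e : ℝ → ℂ := fun α => Complex.exp (α * Complex.I) with he
  have hec : Continuous e := by rw [he]; fun_prop
  have hnorm : ∀ α, ‖e α‖ = 1 := fun α => by
    rw [he]; exact Complex.norm_exp_ofReal_mul_I α
  have hjt : ∀ j : Fin (k + 2), ((j : ℕ) : ℝ) * t ≤ s0 := by
    intro j
    have h1 : ((j : ℕ) : ℝ) ≤ (k : ℝ) + 2 := by
      have := j.2
      have h2 : ((j : ℕ) : ℝ) ≤ ((k + 2 : ℕ) : ℝ) := by exact_mod_cast this.le
      push_cast at h2; exact h2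
    exact (mul_le_mul_of_nonneg_right h1 ht.le).trans htk
  have hjt0 : ∀ j : Fin (k + 2), 0 ≤ ((j : ℕ) : ℝ) * t := fun j => by positivity
  set Emax : ℝ := W * (K * (((k : ℝ) + 2) * t) ^ (k + 2)) with hE
  -- pointwise estimate
  have hpt : ∀ α : ℝ, |t * L (e α)| ≤
      ∑ j : Fin (k + 2), |w j| * |f (circleMap 0 (((j : ℕ) : ℝ) * t) α)| + Emax := by
    intro α
    obtain ⟨a, -, ha1, ha⟩ := hT (e α) (hnorm α)
    have hcm : ∀ s : ℝ, circleMap 0 s α = (s : ℂ) * e α := by
      intro s; simp [circleMap, he]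
    -- polynomial identity
    have hpoly : ∑ j : Fin (k + 2), w j *
        (∑ i ∈ Finset.range (k + 2), a i * (((j : ℕ) : ℝ) * t) ^ i) = t * a 1 := by
      have h1 : ∀ j : Fin (k + 2), w j *
          (∑ i ∈ Finset.range (k + 2), a i * (((j : ℕ) : ℝ) * t) ^ i)
          = ∑ i : Fin (k + 2), (a i * t ^ (i : ℕ)) * (w j * ((j : ℕ) : ℝ) ^ (i : ℕ)) := by
        intro j
        rw [Finset.sum_range (fun i => a i * (((j : ℕ) : ℝ) * t) ^ i), Finset.mul_sum]
        refine Finset.sum_congr rfl fun i _ => ?_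
        rw [mul_pow]; ring
      rw [Finset.sum_congr rfl fun j _ => h1 j, Finset.sum_comm]
      have h2 : ∀ i : Fin (k + 2), ∑ j : Fin (k + 2),
          (a i * t ^ (i : ℕ)) * (w j * ((j : ℕ) : ℝ) ^ (i : ℕ))
          = if i = ⟨1, by omega⟩ then a 1 * t else 0 := by
        intro i
        rw [← Finset.mul_sum, hw i]
        by_cases hi : (i : ℕ) = 1
        · rw [if_pos hi, if_pos (Fin.ext hi), hi]; ring
        · rw [if_neg hi, if_neg (fun h => hi (by rw [h]))]; ring
      rw [Finset.sum_congr rfl fun i _ => h2 i, Finset.sum_ite_eq' Finset.univ]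
      simp [mul_comm]
    have hdiff : |t * L (e α) - ∑ j : Fin (k + 2), w j * f (circleMap 0 (((j : ℕ) : ℝ) * t) α)|
        ≤ Emax := by
      rw [← ha1, ← hpoly, ← Finset.sum_sub_distrib]
      refine (Finset.abs_sum_le_sum_abs _ _).trans ?_
      rw [hE, hW, Finset.sum_mul]
      refine Finset.sum_le_sum fun j _ => ?_
      rw [← mul_sub, abs_mul]
      refine mul_le_mul_of_nonneg_left ?_ (abs_nonneg _)
      rw [abs_sub_comm, hcm]
      refine (ha _ (hjt0 j) (hjt j)).trans ?_
      refine mul_le_mul_of_nonneg_left ?_ hK.le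
      refine pow_le_pow_left₀ (hjt0 j) ?_ _
      have h1 : ((j : ℕ) : ℝ) ≤ (k : ℝ) + 2 := by
        have := j.2
        have h2 : ((j : ℕ) : ℝ) ≤ ((k + 2 : ℕ) : ℝ) := by exact_mod_cast this.le
        push_cast at h2; exact h2
      exact mul_le_mul_of_nonneg_right h1 ht.le
    have htri : |t * L (e α)| ≤
        |∑ j : Fin (k + 2), w j * f (circleMap 0 (((j : ℕ) : ℝ) * t) α)|
        + |t * L (e α) - ∑ j : Fin (k + 2), w j * f (circleMap 0 (((j : ℕ) : ℝ) * t) α)| := by
      have := abs_add_le (∑ j : Fin (k + 2), w j * f (circleMap 0 (((j : ℕ) : ℝ) * t) α))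
        (t * L (e α) - ∑ j : Fin (k + 2), w j * f (circleMap 0 (((j : ℕ) : ℝ) * t) α))
      simpa using this
    have hs : |∑ j : Fin (k + 2), w j * f (circleMap 0 (((j : ℕ) : ℝ) * t) α)| ≤
        ∑ j : Fin (k + 2), |w j| * |f (circleMap 0 (((j : ℕ) : ℝ) * t) α)| := by
      refine (Finset.abs_sum_le_sum_abs _ _).trans (le_of_eq ?_)
      exact Finset.sum_congr rfl fun j _ => abs_mul _ _
    linarith
  -- continuity
  have hcf : ∀ j : Fin (k + 2), Continuous (fun α => |f (circleMap 0 (((j : ℕ) : ℝ) * t) α)|) := by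
    intro j
    apply Continuous.abs
    rw [← continuousOn_univ]
    refine hf.comp (continuous_circleMap 0 _).continuousOn (fun α _ => ?_)
    rw [mem_closedBall_zero_iff]
    have : ‖circleMap 0 (((j : ℕ) : ℝ) * t) α‖ = |((j : ℕ) : ℝ) * t| := by
      simp [norm_circleMap_zero]
    rw [this, abs_of_nonneg (hjt0 j)]
    exact hjt j
  have hint : ∫ α in (0 : ℝ)..(2 * Real.pi),
      (∑ j : Fin (k + 2), |w j| * |f (circleMap 0 (((j : ℕ) : ℝ) * t) α)| + Emax)
      ≤ W * μ + 2 * Real.pi * Emax := by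
    rw [intervalIntegral.integral_add, intervalIntegral.integral_finset_sum]
    · rw [intervalIntegral.integral_const, smul_eq_mul, sub_zero]
      have : ∑ j : Fin (k + 2), ∫ α in (0 : ℝ)..(2 * Real.pi),
          |w j| * |f (circleMap 0 (((j : ℕ) : ℝ) * t) α)| ≤ W * μ := by
        rw [hW, Finset.sum_mul]
        refine Finset.sum_le_sum fun j _ => ?_
        rw [intervalIntegral.integral_const_mul]
        exact mul_le_mul_of_nonneg_left (hI _ (hjt0 j) (hjt j)) (abs_nonneg _)
      linarith
    · intro j _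
      exact (continuous_const.mul (hcf j)).intervalIntegrable _ _
    · apply Continuous.intervalIntegrable
      exact continuous_finset_sum _ fun j _ => continuous_const.mul (hcf j)
    · exact intervalIntegrable_const
  have hEtb : 2 * Real.pi * Emax = 2 * Real.pi * W * K * ((k : ℝ) + 2) ^ (k + 2) * t ^ (k + 1) * t
      := by
    rw [hE, mul_pow]; ring
  -- conclusion from the integral
  have hconc : ∀ X : ℝ, |Real.pi * (t * X)| ≤ W * μ + 2 * Real.pi * Emax →
      |X| ≤ Cst * (μ / t + t ^ (k + 1)) := by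
    intro X hX
    rw [hEtb, abs_mul, abs_mul, abs_of_pos Real.pi_pos, abs_of_pos ht] at hX
    have hpi : (1 : ℝ) ≤ Real.pi := by linarith [Real.pi_gt_three]
    have hX1 : Real.pi * (t * |X|) ≤ Real.pi * (W * μ + 2 * W * K * ((k : ℝ) + 2) ^ (k + 2)
        * t ^ (k + 1) * t) := by
      refine hX.trans ?_
      have h1 : W * μ ≤ Real.pi * (W * μ) := le_mul_of_one_le_left (mul_nonneg hW0 hμ) hpi
      nlinarith [h1]
    have hX2 := le_of_mul_le_mul_left hX1 Real.pi_pos
    have hX3 : |X| ≤ (W * μ + 2 * W * K * ((k : ℝ) + 2) ^ (k + 2) * t ^ (k + 1) * t) / t := by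
      rw [le_div_iff₀ ht]; linarith
    refine hX3.trans ?_
    have h4 : (W * μ + 2 * W * K * ((k : ℝ) + 2) ^ (k + 2) * t ^ (k + 1) * t) / t
        = W * (μ / t) + 2 * W * K * ((k : ℝ) + 2) ^ (k + 2) * t ^ (k + 1) := by
      field_simp
    rw [h4, hCst]
    have h5 : 0 ≤ μ / t := div_nonneg hμ ht.le
    have h6 : 0 ≤ t ^ (k + 1) := by positivity
    have h7 : 0 ≤ W * (2 * K * ((k : ℝ) + 2) ^ (k + 2)) * (μ / t) := by positivity
    have h8 : 0 ≤ W * t ^ (k + 1) := by positivity
    nlinarith
  have hLe : ∀ α : ℝ, L (e α) = Real.cos α * L 1 + Real.sin α * L Complex.I := by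
    intro α
    have h1 : e α = Real.cos α • (1 : ℂ) + Real.sin α • Complex.I := by
      rw [he]
      simp only [Complex.exp_mul_I, Complex.real_smul, Complex.ofReal_cos, Complex.ofReal_sin,
        mul_one]
    have h := congrArg L h1
    rwa [map_add, map_smul, map_smul, smul_eq_mul, smul_eq_mul] at h
  have hLc : Continuous (fun α => L (e α)) := L.continuous.comp hec
  have hbig : ∀ g : ℝ → ℝ, Continuous g → (∀ α, |g α| ≤ 1) →
      |∫ α in (0 : ℝ)..(2 * Real.pi), t * L (e α) * g α| ≤ W * μ + 2 * Real.pi * Emax := by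
    intro g hg hg1
    have hle : (0 : ℝ) ≤ 2 * Real.pi := by positivity
    have hcE : Continuous (fun α => ∑ j : Fin (k + 2), |w j| *
        |f (circleMap 0 (((j : ℕ) : ℝ) * t) α)| + Emax) :=
      (continuous_finset_sum _ fun j _ => continuous_const.mul (hcf j)).add continuous_const
    refine (intervalIntegral.abs_integral_le_integral_abs hle).trans
      (le_trans (intervalIntegral.integral_mono_on hle ?_ ?_ ?_) hint)
    · exact ((continuous_const.mul hLc).mul hg).abs.intervalIntegrable _ _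
    · exact hcE.intervalIntegrable _ _
    · intro α _
      rw [abs_mul]
      calc |t * L (e α)| * |g α| ≤ |t * L (e α)| * 1 :=
            mul_le_mul_of_nonneg_left (hg1 α) (abs_nonneg _)
        _ = |t * L (e α)| := mul_one _
        _ ≤ _ := hpt α
  have hcc : ∫ α in (0 : ℝ)..(2 * Real.pi), Real.cos α ^ 2 = Real.pi := by
    rw [integral_cos_sq]; simp
  have hss : ∫ α in (0 : ℝ)..(2 * Real.pi), Real.sin α ^ 2 = Real.pi := by
    rw [integral_sin_sq]; simp
  have hsc : ∫ α in (0 : ℝ)..(2 * Real.pi), Real.sin α * Real.cos α = 0 := by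
    rw [integral_sin_mul_cos₁]; simp
  constructor
  · apply hconc
    have h := hbig Real.cos Real.continuous_cos Real.abs_cos_le_one
    have h2 : ∫ α in (0 : ℝ)..(2 * Real.pi), t * L (e α) * Real.cos α
        = Real.pi * (t * L 1) := by
      have h3 : ∀ α : ℝ, t * L (e α) * Real.cos α
          = (t * L 1) * Real.cos α ^ 2 + (t * L Complex.I) * (Real.sin α * Real.cos α) := by
        intro α; rw [hLe]; ring
      simp only [h3]
      rw [intervalIntegral.integral_add, intervalIntegral.integral_const_mul,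
        intervalIntegral.integral_const_mul, hcc, hsc]
      · ring
      · exact (by fun_prop : Continuous fun α : ℝ => (t * L 1) * Real.cos α ^ 2).intervalIntegrable
          _ _
      · exact (by fun_prop : Continuous fun α : ℝ => (t * L Complex.I) *
          (Real.sin α * Real.cos α)).intervalIntegrable _ _
    rwa [h2] at h
  · apply hconc
    have h := hbig Real.sin Real.continuous_sin Real.abs_sin_le_one
    have h2 : ∫ α in (0 : ℝ)..(2 * Real.pi), t * L (e α) * Real.sin α
        = Real.pi * (t * L Complex.I) := by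
      have h3 : ∀ α : ℝ, t * L (e α) * Real.sin α
          = (t * L Complex.I) * Real.sin α ^ 2 + (t * L 1) * (Real.sin α * Real.cos α) := by
        intro α; rw [hLe]; ring
      simp only [h3]
      rw [intervalIntegral.integral_add, intervalIntegral.integral_const_mul,
        intervalIntegral.integral_const_mul, hss, hsc]
      · ring
      · exact (by fun_prop : Continuous fun α : ℝ => (t * L Complex.I) *
          Real.sin α ^ 2).intervalIntegrable _ _
      · exact (by fun_prop : Continuous fun α : ℝ => (t * L 1) *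
          (Real.sin α * Real.cos α)).intervalIntegrable _ _
    rwa [h2] at h

end Pool.Agent.W599.SQ.Grad
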