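import Mathlib
import Pool.Agent.W737.SQ.Defs

/-!
# SQ-N: assembly of the normal bound (project SQ of helper737)
-/

set_option autoImplicit false

open Metric Set Filter Topology MeasureTheory

namespace Pool.Agent.W599.SQ.Normal

open Pool.Agent.W737.SQ

/-- first and second real derivatives of `ρ ∘ φ` for holomorphic `φ` -/
lemma derivs {n : ℕ} {ρ : V n → ℝ} (hρ : ContDiff ℝ ((⊤ : ℕ∞) : WithTop ℕ∞) ρ)
    {φ : ℂ → V n} (hφ : DifferentiableOn ℂ φ (ball 0 1)) :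
    (∀ ζ ∈ ball (0 : ℂ) 1, ∀ v : ℂ,
      fderiv ℝ (fun z => - ρ (φ z)) ζ v = - fderiv ℝ ρ (φ ζ) (v • deriv φ ζ)) ∧
    (∀ ζ ∈ ball (0 : ℂ) 1,
      fderiv ℝ (fderiv ℝ (fun z => - ρ (φ z))) ζ 1 1
        + fderiv ℝ (fderiv ℝ (fun z => - ρ (φ z))) ζ Complex.I Complex.I
        = - H4 ρ (φ ζ) (deriv φ ζ)) ∧
    ContDiffOn ℝ ((⊤ : ℕ∞) : WithTop ℕ∞) (fun z => - ρ (φ z)) (ball 0 1) := by
  have hsm : ContDiffOn ℝ ((⊤ : ℕ∞) : WithTop ℕ∞) (fun z => - ρ (φ z)) (ball 0 1) := by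
    have h1 : ContDiffOn ℂ ((⊤ : ℕ∞) : WithTop ℕ∞) φ (ball 0 1) := hφ.contDiffOn isOpen_ball
    have h2 : ContDiffOn ℝ ((⊤ : ℕ∞) : WithTop ℕ∞) φ (ball 0 1) := h1.restrict_scalars ℝ
    exact (hρ.comp_contDiffOn h2).neg
  have hφ' : DifferentiableOn ℂ (deriv φ) (ball 0 1) := hφ.deriv isOpen_ball
  have hρ1 : ContDiff ℝ ((⊤ : ℕ∞) : WithTop ℕ∞) (fderiv ℝ ρ) := hρ.fderiv_right (by norm_cast)
  have hρd : ∀ z, HasFDerivAt ρ (fderiv ℝ ρ z) z := fun z =>
    (hρ.differentiable (by simp)).differentiableAt.hasFDerivAt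
  have hρd1 : ∀ z, HasFDerivAt (fderiv ℝ ρ) (fderiv ℝ (fderiv ℝ ρ) z) z := fun z =>
    (hρ1.differentiable (by simp)).differentiableAt.hasFDerivAt
  have hline : ∀ ζ v : ℂ, ∀ t : ℝ, HasDerivAt (fun t : ℝ => ζ + (t : ℂ) * v) v t := by
    intro ζ v t
    have h := ((Complex.ofRealCLM.hasDerivAt (x := t)).mul_const v).const_add ζ
    simpa using h
  have hf1 : ContDiffOn ℝ ((⊤ : ℕ∞) : WithTop ℕ∞) (fderiv ℝ (fun z => - ρ (φ z))) (ball 0 1) :=
    hsm.fderiv_of_isOpen isOpen_ball (by norm_cast)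
  have hfd : ∀ z ∈ ball (0 : ℂ) 1, HasFDerivAt (fun z => - ρ (φ z))
      (fderiv ℝ (fun z => - ρ (φ z)) z) z := by
    intro z hz
    exact ((hsm.contDiffAt (isOpen_ball.mem_nhds hz)).differentiableAt (by simp)).hasFDerivAt
  have hfd1 : ∀ z ∈ ball (0 : ℂ) 1, HasFDerivAt (fderiv ℝ (fun z => - ρ (φ z)))
      (fderiv ℝ (fderiv ℝ (fun z => - ρ (φ z))) z) z := by
    intro z hz
    exact ((hf1.contDiffAt (isOpen_ball.mem_nhds hz)).differentiableAt (by simp)).hasFDerivAt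
  have hφl : ∀ ζ ∈ ball (0 : ℂ) 1, ∀ v : ℂ,
      HasDerivAt (fun t : ℝ => φ (ζ + (t : ℂ) * v)) (v • deriv φ ζ) 0 := by
    intro ζ hζ v
    have h1 : HasDerivAt φ (deriv φ ζ) (ζ + ((0 : ℝ) : ℂ) * v) := by
      simpa using (hφ.differentiableAt (isOpen_ball.mem_nhds hζ)).hasDerivAt
    exact HasDerivAt.scomp (0 : ℝ) h1 (hline ζ v 0)
  have hφl' : ∀ ζ ∈ ball (0 : ℂ) 1, ∀ v : ℂ,
      HasDerivAt (fun t : ℝ => deriv φ (ζ + (t : ℂ) * v)) (v • deriv (deriv φ) ζ) 0 := by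
    intro ζ hζ v
    have h1 : HasDerivAt (deriv φ) (deriv (deriv φ) ζ) (ζ + ((0 : ℝ) : ℂ) * v) := by
      simpa using (hφ'.differentiableAt (isOpen_ball.mem_nhds hζ)).hasDerivAt
    exact HasDerivAt.scomp (0 : ℝ) h1 (hline ζ v 0)
  have first : ∀ ζ ∈ ball (0 : ℂ) 1, ∀ v : ℂ,
      fderiv ℝ (fun z => - ρ (φ z)) ζ v = - fderiv ℝ ρ (φ ζ) (v • deriv φ ζ) := by
    intro ζ hζ v
    have h0 : (ζ + ((0 : ℝ) : ℂ) * v) = ζ := by simp
    have h1 : HasDerivAt (fun t : ℝ => - ρ (φ (ζ + (t : ℂ) * v)))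
        (fderiv ℝ (fun z => - ρ (φ z)) ζ v) 0 := by
      have h := hfd ζ hζ
      rw [← h0] at h
      have h2 := h.comp_hasDerivAt (0 : ℝ) (hline ζ v 0)
      rw [h0] at h2
      exact h2
    have h2 : HasDerivAt (fun t : ℝ => - ρ (φ (ζ + (t : ℂ) * v)))
        (- fderiv ℝ ρ (φ ζ) (v • deriv φ ζ)) 0 := by
      have h := hρd (φ (ζ + ((0 : ℝ) : ℂ) * v))
      have h3 := h.comp_hasDerivAt (0 : ℝ) (hφl ζ hζ v)
      rw [h0] at h3
      exact h3.neg
    exact h1.unique h2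
  refine ⟨first, ?_, hsm⟩
  have second : ∀ ζ ∈ ball (0 : ℂ) 1, ∀ v : ℂ,
      fderiv ℝ (fderiv ℝ (fun z => - ρ (φ z))) ζ v v
        = - (fderiv ℝ (fderiv ℝ ρ) (φ ζ) (v • deriv φ ζ) (v • deriv φ ζ)
          + fderiv ℝ ρ (φ ζ) ((v * v) • deriv (deriv φ) ζ)) := by
    intro ζ hζ v
    have h0 : (ζ + ((0 : ℝ) : ℂ) * v) = ζ := by simp
    have h1 : HasDerivAt (fun t : ℝ => fderiv ℝ (fun z => - ρ (φ z)) (ζ + (t : ℂ) * v) v)
        (fderiv ℝ (fderiv ℝ (fun z => - ρ (φ z))) ζ v v) 0 := by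
      have h := hfd1 ζ hζ
      rw [← h0] at h
      have h2 := h.comp_hasDerivAt (0 : ℝ) (hline ζ v 0)
      rw [h0] at h2
      have h3 := h2.clm_apply (hasDerivAt_const (0 : ℝ) v)
      exact h3.congr_deriv (by simp)
    have h2 : HasDerivAt (fun t : ℝ => - fderiv ℝ ρ (φ (ζ + (t : ℂ) * v))
          (v • deriv φ (ζ + (t : ℂ) * v)))
        (- (fderiv ℝ (fderiv ℝ ρ) (φ ζ) (v • deriv φ ζ) (v • deriv φ ζ)
          + fderiv ℝ ρ (φ ζ) ((v * v) • deriv (deriv φ) ζ))) 0 := by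
      have h := hρd1 (φ (ζ + ((0 : ℝ) : ℂ) * v))
      have h3 := h.comp_hasDerivAt (0 : ℝ) (hφl ζ hζ v)
      have h4 := (h3.clm_apply ((hφl' ζ hζ v).const_smul v)).neg
      refine h4.congr_deriv ?_
      simp only [Function.comp_apply, Pi.smul_apply, h0, smul_smul]
    have hev : (fun t : ℝ => fderiv ℝ (fun z => - ρ (φ z)) (ζ + (t : ℂ) * v) v) =ᶠ[𝓝 0]
        (fun t : ℝ => - fderiv ℝ ρ (φ (ζ + (t : ℂ) * v)) (v • deriv φ (ζ + (t : ℂ) * v))) := by
      have hc : ContinuousAt (fun t : ℝ => ζ + (t : ℂ) * v) 0 := (hline ζ v 0).continuousAt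
      have hn : ball (0 : ℂ) 1 ∈ 𝓝 (ζ + ((0 : ℝ) : ℂ) * v) := by
        rw [h0]; exact isOpen_ball.mem_nhds hζ
      filter_upwards [hc.preimage_mem_nhds hn] with t ht
      exact first _ ht v
    exact (h1.congr_of_eventuallyEq hev.symm).unique h2
  intro ζ hζ
  rw [second ζ hζ, second ζ hζ, H4]
  simp only [one_smul, mul_one, Complex.I_mul_I, neg_smul, map_neg]
  ring

theorem main : S_psc → S_circle → S_taylor → S_grad → S_normal := by
  intro hpsc hcirc htay hgrad n Ω ρ hD p hp m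
  obtain ⟨K1, R1, hK1, hR1, hps⟩ := hpsc n Ω ρ hD p hp
  obtain ⟨B0, hB0⟩ := hD.bdd.exists_norm_le
  set B : ℝ := max B0 1 with hB
  have hB1 : 1 ≤ B := le_max_right _ _
  have hBΩ : ∀ x ∈ Ω, ‖x‖ ≤ B := fun x hx => (hB0 x hx).trans (le_max_left _ _)
  have hBpos : 0 < B := by linarith
  obtain ⟨F0, hF0⟩ := (isCompact_closedBall (0 : V n) B).exists_bound_of_continuousOn
    hD.smooth.continuous.continuousOn
  set F : ℝ := max F0 1 with hF
  have hF1 : 1 ≤ F := le_max_right _ _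
  have hFb : ∀ x ∈ Ω, - ρ x ≤ F := by
    intro x hx
    have h := hF0 x (by rw [mem_closedBall_zero_iff]; exact hBΩ x hx)
    rw [Real.norm_eq_abs] at h
    exact (neg_le_abs _).trans (h.trans (le_max_left _ _))
  set R0 : ℝ := min (1 / 2) (R1 / (8 * B)) with hR0
  have hR0pos : 0 < R0 := by positivity
  have hR0h : R0 ≤ 1 / 2 := min_le_left _ _
  have hR0B : 4 * B * R0 ≤ R1 / 2 := by
    calc 4 * B * R0 ≤ 4 * B * (R1 / (8 * B)) :=
          mul_le_mul_of_nonneg_left (min_le_right _ _) (by positivity)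
      _ = R1 / 2 := by field_simp; ring
  set K2 : ℝ := 16 * K1 * B ^ 2 + 8 * K1 * B with hK2
  have hK2pos : 0 < K2 := by positivity
  set η : ℝ := 1 - 1 / (2 * ((m : ℝ) + 1)) with hη
  have hm1 : (0 : ℝ) < (m : ℝ) + 1 := by positivity
  have hη1 : η < 1 := by
    rw [hη]
    have : 0 < 1 / (2 * ((m : ℝ) + 1)) := by positivity
    linarith
  have hη0 : 0 < η := by
    rw [hη]
    have : 1 / (2 * ((m : ℝ) + 1)) ≤ 1 / 2 := by
      apply one_div_le_one_div_of_le (by norm_num)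
      have : (0 : ℝ) ≤ (m : ℝ) := by positivity
      linarith
    linarith
  obtain ⟨s0, hs0, hs0R, hci⟩ := hcirc η K2 R0 hη0 hη1 hK2pos hR0pos
  obtain ⟨K3, hK3, hta⟩ := htay n ρ hD.smooth B (2 * m)
  obtain ⟨C, hC, hgr⟩ := hgrad (2 * m) K3 s0 hK3 hs0
  set c : ℝ := s0 / ((((2 * m : ℕ) : ℝ) + 2) * F) with hc
  have hk2pos : (0 : ℝ) < (((2 * m : ℕ) : ℝ) + 2) := by positivity
  have hFpos : 0 < F := by linarith
  have hcpos : 0 < c := by positivity
  set Q : ℝ := F ^ (1 - η) * (2 * Real.pi * 2) with hQ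
  have hQ0 : 0 ≤ Q := by positivity
  set C' : ℝ := C * (Q / c + c ^ (2 * m + 1) * F) with hC'
  have hC'0 : 0 ≤ C' := by positivity
  refine ⟨C' ^ (m + 1) + 1, R1 / 2, by positivity, by positivity, ?_⟩
  intro φ hφ hφΩ hφp
  obtain ⟨hd1, hd2, hsm⟩ := derivs hD.smooth hφ
  set f : ℂ → ℝ := fun z => - ρ (φ z) with hf
  have hΩρ : ∀ x ∈ Ω, ρ x < 0 := by
    intro x hx; rw [hD.eq] at hx; exact hx
  have hfpos : ∀ ζ ∈ ball (0 : ℂ) 1, 0 < f ζ := by
    intro ζ hζ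
    have := hΩρ _ (hφΩ hζ)
    rw [hf]; simp only; linarith
  have hfF : ∀ ζ ∈ ball (0 : ℂ) 1, f ζ ≤ F := fun ζ hζ => hFb _ (hφΩ hζ)
  -- Cauchy estimate
  have hcauchy : ∀ ζ : ℂ, ‖ζ‖ ≤ 1 / 2 → ‖deriv φ ζ‖ ≤ 4 * B := by
    intro ζ hζ
    have hcb : closedBall ζ (1 / 4) ⊆ ball (0 : ℂ) 1 := by
      intro z hz
      rw [mem_closedBall, dist_eq_norm] at hz
      rw [mem_ball_zero_iff]
      have h2 : ‖z‖ ≤ ‖z - ζ‖ + ‖ζ‖ := by
        have := norm_add_le (z - ζ) ζ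
        simpa using this
      linarith
    have hdc : DiffContOnCl ℂ φ (ball ζ (1 / 4)) := by
      apply DifferentiableOn.diffContOnCl
      exact hφ.mono (closure_ball_subset_closedBall.trans hcb)
    have h := Complex.norm_deriv_le_of_forall_mem_sphere_norm_le (C := B)
      (by norm_num : (0 : ℝ) < 1 / 4) hdc
      (fun z hz => hBΩ _ (hφΩ (hcb (sphere_subset_closedBall hz))))
    refine h.trans (le_of_eq ?_)
    ring
  have hb1 : ball (0 : ℂ) R0 ⊆ ball (0 : ℂ) 1 := ball_subset_ball (by linarith)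
  have hnear : ∀ ζ ∈ ball (0 : ℂ) R0, ‖φ ζ - p‖ < R1 := by
    intro ζ hζ
    rw [mem_ball_zero_iff] at hζ
    have h1 : ‖φ ζ - φ 0‖ ≤ 4 * B * ‖ζ - 0‖ := by
      refine (convex_closedBall (0 : ℂ) (1 / 2)).norm_image_sub_le_of_norm_deriv_le
        (f := φ) (fun x hx => ?_) (fun x hx => ?_) ?_ ?_
      · apply hφ.differentiableAt
        apply isOpen_ball.mem_nhds
        rw [mem_closedBall_zero_iff] at hx
        rw [mem_ball_zero_iff]; linarith
      · rw [mem_closedBall_zero_iff] at hx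
        exact hcauchy x hx
      · simp
      · rw [mem_closedBall_zero_iff]; linarith
    rw [sub_zero] at h1
    have h2 : ‖φ ζ - p‖ ≤ ‖φ ζ - φ 0‖ + ‖φ 0 - p‖ := by
      have := norm_add_le (φ ζ - φ 0) (φ 0 - p)
      simpa using this
    have h3 : 4 * B * ‖ζ‖ ≤ 4 * B * R0 := mul_le_mul_of_nonneg_left hζ.le (by positivity)
    linarith
  have hlap : ∀ ζ ∈ ball (0 : ℂ) R0,
      fderiv ℝ (fderiv ℝ f) ζ 1 1 + fderiv ℝ (fderiv ℝ f) ζ Complex.I Complex.I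
        ≤ K2 * (f ζ + ‖fderiv ℝ f ζ‖) := by
    intro ζ hζ
    have hζ1 := hb1 hζ
    rw [hd2 ζ hζ1]
    have h1 := hps (φ ζ) (hnear ζ hζ) (deriv φ ζ)
    have hX : ‖deriv φ ζ‖ ≤ 4 * B := by
      apply hcauchy
      rw [mem_ball_zero_iff] at hζ; linarith
    have hX0 : 0 ≤ ‖deriv φ ζ‖ := norm_nonneg _
    have habs : |ρ (φ ζ)| = f ζ := by
      rw [abs_of_neg (hΩρ _ (hφΩ hζ1))]
    have ha : |fderiv ℝ ρ (φ ζ) (deriv φ ζ)| ≤ ‖fderiv ℝ f ζ‖ := by
      have h := hd1 ζ hζ1 1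
      rw [one_smul] at h
      have h2 := (fderiv ℝ f ζ).le_opNorm 1
      rw [h] at h2
      simpa using h2
    have hb : |fderiv ℝ ρ (φ ζ) (Complex.I • deriv φ ζ)| ≤ ‖fderiv ℝ f ζ‖ := by
      have h := hd1 ζ hζ1 Complex.I
      have h2 := (fderiv ℝ f ζ).le_opNorm Complex.I
      rw [h] at h2
      simpa using h2
    rw [habs] at h1
    have hN0 : 0 ≤ ‖fderiv ℝ f ζ‖ := norm_nonneg _
    have hf0 := (hfpos ζ hζ1).le
    set N := ‖fderiv ℝ f ζ‖
    set X := ‖deriv φ ζ‖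
    have t1 : K1 * f ζ * X ^ 2 ≤ K1 * f ζ * (4 * B) ^ 2 := by
      have : X ^ 2 ≤ (4 * B) ^ 2 := by gcongr
      exact mul_le_mul_of_nonneg_left this (by positivity)
    have t2 : K1 * X * (|fderiv ℝ ρ (φ ζ) (deriv φ ζ)| +
        |fderiv ℝ ρ (φ ζ) (Complex.I • deriv φ ζ)|) ≤ K1 * (4 * B) * (N + N) := by
      apply mul_le_mul _ (add_le_add ha hb) (by positivity) (by positivity)
      exact mul_le_mul_of_nonneg_left hX hK1.le
    have t3 : K1 * f ζ * (4 * B) ^ 2 + K1 * (4 * B) * (N + N) ≤ K2 * (f ζ + N) := by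
      rw [hK2]
      have u1 : 0 ≤ 8 * K1 * B * f ζ := by positivity
      have u2 : 0 ≤ 16 * K1 * B ^ 2 * N := by positivity
      nlinarith
    linarith
  have hmeans := hci f (hsm.mono hb1) (fun ζ hζ => hfpos ζ (hb1 hζ)) hlap
  have h01 : (0 : ℂ) ∈ ball (0 : ℂ) 1 := by simp
  have hf0pos : 0 < f 0 := hfpos 0 h01
  have hf0F : f 0 ≤ F := hfF 0 h01
  set μ : ℝ := Q * (f 0) ^ η with hμ
  have hμ0 : 0 ≤ μ := mul_nonneg hQ0 (Real.rpow_nonneg hf0pos.le _)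
  have hcircle : ∀ s : ℝ, 0 ≤ s → s ≤ s0 → ∀ α : ℝ, circleMap 0 s α ∈ ball (0 : ℂ) 1 := by
    intro s hs1 hs2 α
    rw [mem_ball_zero_iff, norm_circleMap_zero, abs_of_nonneg hs1]
    linarith
  have hcf : ∀ s : ℝ, 0 ≤ s → s ≤ s0 → Continuous (fun α => f (circleMap 0 s α)) := by
    intro s hs1 hs2
    rw [← continuousOn_univ]
    exact hsm.continuousOn.comp (continuous_circleMap 0 s).continuousOn
      (fun α _ => hcircle s hs1 hs2 α)
  have hI : ∀ s : ℝ, 0 ≤ s → s ≤ s0 →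
      ∫ α in (0 : ℝ)..(2 * Real.pi), |f (circleMap 0 s α)| ≤ μ := by
    intro s hs1 hs2
    have hle : (0 : ℝ) ≤ 2 * Real.pi := by positivity
    have h1 : ∫ α in (0 : ℝ)..(2 * Real.pi), |f (circleMap 0 s α)| ≤
        ∫ α in (0 : ℝ)..(2 * Real.pi), F ^ (1 - η) * (f (circleMap 0 s α)) ^ η := by
      apply intervalIntegral.integral_mono_on hle
      · exact (hcf s hs1 hs2).abs.intervalIntegrable _ _
      · apply Continuous.intervalIntegrable
        apply continuous_const.mul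
        exact (hcf s hs1 hs2).rpow_const
          (fun α => Or.inl (hfpos _ (hcircle s hs1 hs2 α)).ne')
      · intro α _
        have hp1 := hfpos _ (hcircle s hs1 hs2 α)
        rw [abs_of_pos hp1]
        calc f (circleMap 0 s α) = (f (circleMap 0 s α)) ^ (1 - η)
              * (f (circleMap 0 s α)) ^ η := by
              rw [← Real.rpow_add hp1]; simp
          _ ≤ F ^ (1 - η) * (f (circleMap 0 s α)) ^ η := by
              apply mul_le_mul_of_nonneg_right _ (Real.rpow_nonneg hp1.le _)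
              exact Real.rpow_le_rpow hp1.le (hfF _ (hcircle s hs1 hs2 α)) (by linarith)
    rw [intervalIntegral.integral_const_mul] at h1
    refine h1.trans ?_
    have h2 := mul_le_mul_of_nonneg_left (hmeans s hs1 hs2)
      (Real.rpow_nonneg hFpos.le (1 - η))
    refine h2.trans (le_of_eq ?_)
    rw [hμ, hQ]; ring
  -- Taylor data
  set T : ℂ →L[ℝ] V n :=
    ((ContinuousLinearMap.toSpanSingleton ℂ (deriv φ 0)).restrictScalars ℝ) with hT
  have hTa : ∀ u : ℂ, T u = u • deriv φ 0 := by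
    intro u; simp [hT, ContinuousLinearMap.toSpanSingleton_apply]
  set L : ℂ →L[ℝ] ℝ := - (fderiv ℝ ρ (φ 0)).comp T with hL
  have hLa : ∀ u : ℂ, L u = - fderiv ℝ ρ (φ 0) (u • deriv φ 0) := by
    intro u; simp [hL, hTa]
  have hTay : ∀ u : ℂ, ‖u‖ = 1 → ∃ a : ℕ → ℝ, a 0 = f 0 ∧ a 1 = L u ∧
      ∀ s : ℝ, 0 ≤ s → s ≤ s0 →
        |f ((s : ℂ) * u) - ∑ j ∈ Finset.range (2 * m + 2), a j * s ^ j| ≤ K3 * s ^ (2 * m + 2) := by
    intro u hu
    obtain ⟨a, ha0, ha1, ha⟩ := hta φ hφ (fun ζ hζ => hBΩ _ (hφΩ hζ)) u hu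
    refine ⟨fun j => - a j, ?_, ?_, ?_⟩
    · simp only [ha0, hf]
    · simp only [ha1, hLa]
    · intro s hs1 hs2
      have h := ha s hs1 (by linarith)
      have e1 : f ((s : ℂ) * u) - ∑ j ∈ Finset.range (2 * m + 2), - a j * s ^ j
          = - (ρ (φ ((s : ℂ) * u)) - ∑ j ∈ Finset.range (2 * m + 2), a j * s ^ j) := by
        simp only [hf, neg_mul, Finset.sum_neg_distrib]
        ring
      rw [e1, abs_neg]
      exact h
  have hfc : ContinuousOn f (closedBall 0 s0) := by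
    apply hsm.continuousOn.mono
    intro z hz
    rw [mem_closedBall_zero_iff] at hz
    rw [mem_ball_zero_iff]; linarith
  -- choice of t
  set x : ℝ := (f 0) ^ (1 / (2 * ((m : ℝ) + 1))) with hx
  have hxpos : 0 < x := Real.rpow_pos_of_pos hf0pos _
  have hxp : x ^ (2 * m + 2) = f 0 := by
    rw [hx, ← Real.rpow_natCast, ← Real.rpow_mul hf0pos.le]
    have : 1 / (2 * ((m : ℝ) + 1)) * ((2 * m + 2 : ℕ) : ℝ) = 1 := by
      push_cast; field_simp
    rw [this, Real.rpow_one]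
  have hxη : (f 0) ^ η = x ^ (2 * m + 1) := by
    rw [hx, ← Real.rpow_natCast, ← Real.rpow_mul hf0pos.le]
    congr 1
    rw [hη]; push_cast; field_simp; ring
  have hxF : x ≤ F := by
    by_contra hcon
    push Not at hcon
    have h1 : F < x ^ (2 * m + 2) := by
      calc F < x := hcon
        _ ≤ x ^ (2 * m + 2) := le_self_pow₀ (by linarith) (by omega)
    rw [hxp] at h1
    linarith
  have ht : 0 < c * x := by positivity
  have htk : (((2 * m : ℕ) : ℝ) + 2) * (c * x) ≤ s0 := by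
    have h1 : (((2 * m : ℕ) : ℝ) + 2) * (c * F) = s0 := by
      rw [hc]; field_simp
    calc (((2 * m : ℕ) : ℝ) + 2) * (c * x) ≤ (((2 * m : ℕ) : ℝ) + 2) * (c * F) := by
          gcongr
      _ = s0 := h1
  obtain ⟨hg1, hg2⟩ := hgr f L μ hfc hμ0 hTay hI (c * x) ht htk
  have hbd : C * (μ / (c * x) + (c * x) ^ (2 * m + 1)) ≤ C' * x ^ (2 * m) := by
    have h1 : μ / (c * x) = Q / c * x ^ (2 * m) := by
      rw [hμ, hxη]
      field_simp
      ring
    have h2 : (c * x) ^ (2 * m + 1) ≤ c ^ (2 * m + 1) * F * x ^ (2 * m) := by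
      rw [mul_pow, pow_succ x]
      have : x ^ (2 * m) * x ≤ x ^ (2 * m) * F :=
        mul_le_mul_of_nonneg_left hxF (by positivity)
      calc c ^ (2 * m + 1) * (x ^ (2 * m) * x) ≤ c ^ (2 * m + 1) * (x ^ (2 * m) * F) :=
            mul_le_mul_of_nonneg_left this (by positivity)
        _ = _ := by ring
    rw [h1, hC']
    calc C * (Q / c * x ^ (2 * m) + (c * x) ^ (2 * m + 1))
        ≤ C * (Q / c * x ^ (2 * m) + c ^ (2 * m + 1) * F * x ^ (2 * m)) := by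
          apply mul_le_mul_of_nonneg_left _ hC.le
          linarith
      _ = _ := by ring
  have hfin : ∀ Y : ℝ, |Y| ≤ C * (μ / (c * x) + (c * x) ^ (2 * m + 1)) →
      |Y| ^ (m + 1) ≤ (C' ^ (m + 1) + 1) * (f 0) ^ m := by
    intro Y hY
    have h1 := hY.trans hbd
    calc |Y| ^ (m + 1) ≤ (C' * x ^ (2 * m)) ^ (m + 1) := by gcongr
      _ = C' ^ (m + 1) * (x ^ (2 * m + 2)) ^ m := by
          have e1 : 2 * m * (m + 1) = (2 * m + 2) * m := by ring
          rw [mul_pow, ← pow_mul, ← pow_mul, e1]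
      _ = C' ^ (m + 1) * (f 0) ^ m := by rw [hxp]
      _ ≤ (C' ^ (m + 1) + 1) * (f 0) ^ m := by
          apply mul_le_mul_of_nonneg_right (by linarith) (by positivity)
  constructor
  · have h := hfin (L 1) hg1
    rw [hLa, one_smul, abs_neg] at h
    exact h
  · have h := hfin (L Complex.I) hg2
    rw [hLa, abs_neg] at h
    exact h

end Pool.Agent.W599.SQ.Normal
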