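import Mathlib
import Pool.Agent.W737.SQ.Defs

/-!
# SQ-T: uniform Taylor expansion of rho o phi along rays (project SQ of helper737)
-/

set_option autoImplicit false

open Metric Set Filter Topology

namespace Pool.Agent.W599.SQ.Taylor

theorem main : Pool.Agent.W737.SQ.S_taylor := by
  intro n ρ hρ B k
  -- bound for the derivatives of rho
  have hC : ∀ i : ℕ, ∃ C : ℝ, ∀ y ∈ closedBall (0 : Pool.Agent.W737.SQ.V n) B,
      ‖iteratedFDeriv ℝ i ρ y‖ ≤ C := by
    intro i
    apply (isCompact_closedBall _ _).exists_bound_of_continuousOn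
    exact (hρ.continuous_iteratedFDeriv (m := i) (by exact_mod_cast le_top)).continuousOn
  choose Ci hCi using hC
  set C1 : ℝ := ∑ i ∈ Finset.range (k + 3), |Ci i| with hC1
  have hC1i : ∀ i ≤ k + 2, Ci i ≤ C1 := by
    intro i hi
    refine (le_abs_self _).trans ?_
    exact Finset.single_le_sum (f := fun i => |Ci i|) (fun j _ => abs_nonneg _)
      (Finset.mem_range.mpr (by omega))
  have hC10 : 0 ≤ C1 := Finset.sum_nonneg fun j _ => abs_nonneg _
  set B' : ℝ := max B 1 with hB'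
  have hB'1 : 1 ≤ B' := le_max_right _ _
  have hBB' : B ≤ B' := le_max_left _ _
  set D : ℝ := 4 * ((k + 2).factorial : ℝ) * B' with hD
  have hfac1 : (1 : ℝ) ≤ ((k + 2).factorial : ℝ) := by
    exact_mod_cast Nat.succ_le_of_lt (Nat.factorial_pos _)
  have hD0 : 0 < D := by positivity
  set Cst : ℝ := ((k + 2).factorial : ℝ) * C1 * D ^ (k + 2) with hCst
  have hCst0 : 0 ≤ Cst := by positivity
  refine ⟨Cst + 1, by positivity, ?_⟩
  intro φ hφ hφB u hu
  set I : Set ℝ := Icc 0 (1 / 2) with hI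
  have hIu : UniqueDiffOn ℝ I := uniqueDiffOn_Icc (by norm_num)
  have hIn : ∀ s : ℝ, |s| < 1 → (s : ℂ) * u ∈ ball (0 : ℂ) 1 := by
    intro s hs
    rw [mem_ball_zero_iff, norm_mul, hu, mul_one, Complex.norm_real, Real.norm_eq_abs]
    exact hs
  have hIabs : ∀ s ∈ I, |s| ≤ 1 / 2 := by
    intro s hs
    rw [abs_of_nonneg hs.1]; exact hs.2
  have hIabs' : ∀ s ∈ I, |s| < 1 := fun s hs => (hIabs s hs).trans_lt (by norm_num)
  have hdiff : ∀ i, DifferentiableOn ℂ (iteratedDeriv i φ) (ball 0 1) := by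
    intro i
    induction i with
    | zero => simpa [iteratedDeriv_zero] using hφ
    | succ i ih =>
      rw [iteratedDeriv_succ]
      exact ih.deriv isOpen_ball
  set f : ℝ → Pool.Agent.W737.SQ.V n := fun s => φ ((s : ℂ) * u) with hf
  set fi : ℕ → ℝ → Pool.Agent.W737.SQ.V n :=
    fun i s => u ^ i • iteratedDeriv i φ ((s : ℂ) * u) with hfi
  have hline : ∀ s : ℝ, HasDerivAt (fun s : ℝ => (s : ℂ) * u) u s := by
    intro s
    have h := (Complex.ofRealCLM.hasDerivAt (x := s)).mul_const u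
    simpa using h
  have hfid : ∀ i s, |s| < 1 → HasDerivAt (fi i) (fi (i + 1) s) s := by
    intro i s hs
    have h1 : HasDerivAt (iteratedDeriv i φ) (iteratedDeriv (i + 1) φ ((s : ℂ) * u))
        ((s : ℂ) * u) := by
      rw [iteratedDeriv_succ]
      exact ((hdiff i).differentiableAt (isOpen_ball.mem_nhds (hIn s hs))).hasDerivAt
    have h2 := HasDerivAt.scomp s h1 (hline s)
    have h3 := h2.const_smul (u ^ i)
    have h4 : fi (i + 1) s = u ^ i • (u • iteratedDeriv (i + 1) φ ((s : ℂ) * u)) := by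
      rw [hfi]; simp only; rw [smul_smul, pow_succ]
    rw [h4]
    exact h3
  have hiter : ∀ i, ∀ s ∈ I, iteratedDerivWithin i f I s = fi i s := by
    intro i
    induction i with
    | zero => intro s _; simp [iteratedDerivWithin_zero, hf, hfi]
    | succ i ih =>
      intro s hs
      rw [iteratedDerivWithin_succ]
      rw [derivWithin_congr ih (ih s hs)]
      exact (hfid i s (hIabs' s hs)).hasDerivWithinAt.derivWithin (hIu s hs)
  have hbound : ∀ i, ∀ s ∈ I, ‖fi i s‖ ≤ (i.factorial : ℝ) * B' * 4 ^ i := by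
    intro i s hs
    rw [hfi]
    simp only
    rw [norm_smul, norm_pow, hu, one_pow, one_mul]
    have hcb : closedBall ((s : ℂ) * u) (1 / 4) ⊆ ball (0 : ℂ) 1 := by
      intro z hz
      rw [mem_closedBall, dist_eq_norm] at hz
      rw [mem_ball_zero_iff]
      have h1 : ‖(s : ℂ) * u‖ ≤ 1 / 2 := by
        rw [norm_mul, hu, mul_one, Complex.norm_real, Real.norm_eq_abs]
        exact hIabs s hs
      have h2 : ‖z‖ ≤ ‖z - (s : ℂ) * u‖ + ‖(s : ℂ) * u‖ := by
        have := norm_add_le (z - (s : ℂ) * u) ((s : ℂ) * u)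
        simpa using this
      linarith
    have hdc : DiffContOnCl ℂ φ (ball ((s : ℂ) * u) (1 / 4)) := by
      apply DifferentiableOn.diffContOnCl
      exact hφ.mono (closure_ball_subset_closedBall.trans hcb)
    have h := Complex.norm_iteratedDeriv_le_of_forall_mem_sphere_norm_le (C := B') i
      (by norm_num : (0 : ℝ) < 1 / 4) hdc
      (fun z hz => (hφB z (hcb (sphere_subset_closedBall hz))).trans hBB')
    refine h.trans (le_of_eq ?_)
    rw [one_div, inv_pow, div_inv_eq_mul]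
  have hbD : ∀ s ∈ I, ∀ i, 1 ≤ i → i ≤ k + 2 → ‖iteratedFDerivWithin ℝ i f I s‖ ≤ D ^ i := by
    intro s hs i hi1 hi2
    rw [norm_iteratedFDerivWithin_eq_norm_iteratedDerivWithin, hiter i s hs]
    refine (hbound i s hs).trans ?_
    rw [hD, mul_pow, mul_pow]
    have h1 : (i.factorial : ℝ) ≤ ((k + 2).factorial : ℝ) ^ i := by
      calc (i.factorial : ℝ) ≤ ((k + 2).factorial : ℝ) := by
            exact_mod_cast Nat.factorial_le hi2
        _ ≤ ((k + 2).factorial : ℝ) ^ i := le_self_pow₀ hfac1 (by omega)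
    have h2 : B' ≤ B' ^ i := le_self_pow₀ hB'1 (by omega)
    have h3 : (i.factorial : ℝ) * B' ≤ ((k + 2).factorial : ℝ) ^ i * B' ^ i :=
      mul_le_mul h1 h2 (by linarith) (by positivity)
    calc (i.factorial : ℝ) * B' * 4 ^ i ≤ (((k + 2).factorial : ℝ) ^ i * B' ^ i) * 4 ^ i :=
          mul_le_mul_of_nonneg_right h3 (by positivity)
      _ = 4 ^ i * ((k + 2).factorial : ℝ) ^ i * B' ^ i := by ring
  have hfc : ContDiffOn ℝ ((⊤ : ℕ∞) : WithTop ℕ∞) f I := by
    have h1 : ContDiffOn ℂ ((⊤ : ℕ∞) : WithTop ℕ∞) φ (ball 0 1) := hφ.contDiffOn isOpen_ball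
    have h2 : ContDiffOn ℝ ((⊤ : ℕ∞) : WithTop ℕ∞) φ (ball 0 1) := h1.restrict_scalars ℝ
    have h3 : ContDiff ℝ ((⊤ : ℕ∞) : WithTop ℕ∞) (fun s : ℝ => (s : ℂ) * u) :=
      (Complex.ofRealCLM.contDiff).mul contDiff_const
    exact h2.comp h3.contDiffOn (fun s hs => hIn s (hIabs' s hs))
  have hGc : ContDiffOn ℝ ((⊤ : ℕ∞) : WithTop ℕ∞) (ρ ∘ f) I := hρ.comp_contDiffOn hfc
  have hGb : ∀ s ∈ I, ‖iteratedDerivWithin (k + 1 + 1) (ρ ∘ f) I s‖ ≤ Cst := by
    intro s hs
    rw [← norm_iteratedFDerivWithin_eq_norm_iteratedDerivWithin]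
    have hC' : ∀ i ≤ k + 2, ‖iteratedFDerivWithin ℝ i ρ univ (f s)‖ ≤ C1 := by
      intro i hi
      rw [iteratedFDerivWithin_univ]
      refine (hCi i (f s) ?_).trans (hC1i i hi)
      rw [mem_closedBall_zero_iff]
      exact hφB _ (hIn s (hIabs' s hs))
    have hle : ∀ m : ℕ, ((m : ℕ) : WithTop ℕ∞) ≤ ((⊤ : ℕ∞) : WithTop ℕ∞) := fun m => by
      exact_mod_cast le_top
    exact norm_iteratedFDerivWithin_comp_le (n := k + 2) hρ.contDiffOn hfc
      (hle (k + 2)) uniqueDiffOn_univ hIu (mapsTo_univ _ _) hs hC' (hbD s hs)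
  refine ⟨fun j => ((j.factorial : ℝ))⁻¹ * iteratedDerivWithin j (ρ ∘ f) I 0, ?_, ?_, ?_⟩
  · simp [iteratedDerivWithin_zero, hf]
  · have h0I : (0 : ℝ) ∈ I := ⟨le_rfl, by norm_num⟩
    have h1 : HasDerivAt f (u • deriv φ 0) 0 := by
      have h := hfid 0 0 (by simp)
      have e1 : fi 0 = f := by
        funext s; simp [hfi, hf]
      have e2 : fi 1 0 = u • deriv φ 0 := by
        simp [hfi, iteratedDeriv_one]
      rw [e1, e2] at h
      exact h
    have hf0 : f 0 = φ 0 := by simp [hf]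
    have h2 : HasFDerivAt ρ (fderiv ℝ ρ (φ 0)) (f 0) := by
      rw [hf0]
      exact (hρ.differentiable (by simp)).differentiableAt.hasFDerivAt
    have h3 := h2.comp_hasDerivAt 0 h1
    simp only [Nat.factorial_one, Nat.cast_one, inv_one, one_mul]
    rw [iteratedDerivWithin_one, h3.hasDerivWithinAt.derivWithin (hIu 0 h0I)]
  · intro s hs0 hs1
    have hsI : s ∈ I := ⟨hs0, hs1⟩
    have h := taylor_mean_remainder_bound (f := ρ ∘ f) (n := k + 1) (a := 0) (b := 1 / 2)
      (C := Cst) (by norm_num) (hGc.of_le (by exact_mod_cast le_top)) hsI hGb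
    rw [taylor_within_apply, Real.norm_eq_abs] at h
    have e1 : ∑ j ∈ Finset.range (k + 2),
        ((j.factorial : ℝ))⁻¹ * iteratedDerivWithin j (ρ ∘ f) I 0 * s ^ j =
        ∑ j ∈ Finset.range (k + 1 + 1), (((j.factorial : ℝ))⁻¹ * (s - 0) ^ j) •
          iteratedDerivWithin j (ρ ∘ f) (Icc 0 (1 / 2)) 0 := by
      refine Finset.sum_congr rfl fun j _ => ?_
      rw [sub_zero, smul_eq_mul, hI]; ring
    rw [e1]
    refine le_trans h ?_
    rw [sub_zero]
    have hs2 : 0 ≤ s ^ (k + 2) := by positivity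
    have h5 : (1 : ℝ) ≤ ((k + 1).factorial : ℝ) := by
      exact_mod_cast Nat.succ_le_of_lt (Nat.factorial_pos _)
    rw [div_le_iff₀ (by linarith)]
    have h6 : Cst * s ^ (k + 2) ≤ (Cst + 1) * s ^ (k + 2) :=
      mul_le_mul_of_nonneg_right (by linarith) hs2
    have h7 : (Cst + 1) * s ^ (k + 2) ≤ (Cst + 1) * s ^ (k + 2) * ((k + 1).factorial : ℝ) :=
      le_mul_of_one_le_right (by positivity) h5
    exact h6.trans h7

end Pool.Agent.W599.SQ.Taylor
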